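import Pool.Agent.Y479.LS.Union

set_option autoImplicit false

/-!
# Unions of two alternating tangles of opposite sign

Let `T`, `T'` be alternating tangle diagrams (`Pool.Agent.Y479.LS.Tangle`): every crossing has the
same sign with respect to the checkerboard colouring, the four regions at the boundary circle are
`west` (white), `north` (black), `east` (white), `south` (black). Let `L` be the link with the diagram
that is obtained by gluing `T` and the mirror image of `T'` (the tangle of opposite sign) along the
boundary circle, region by region. For instance, if `T'` consists of one crossing then the diagram is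
almost alternating; if `T'` is a rational tangle then it is alternating up to one rational tangle of
the wrong sign.

The group `Union.Grp T T'` is the fundamental group of the double branched cover of `L`: it is
generated by the regions, where `west = 1` and `north = 1`, with the relation `b₂⁻¹ b₁ = w₁⁻¹ w₂` for
each crossing of `T` and of `T'` (the corners `w₁, b₁, w₂, b₂` in counterclockwise order in `T`,
respectively in `T'` before reflection).

The theorem: suppose that the poles `west`, `east` of `T` are joined in the white graph of `T` by two
disjoint paths of length two and by `n` paths of length one, that the poles `north`, `south` of `T'`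
are joined in the black graph of `T'` by a walk of length `n + 1` (a curve that separates the white
poles of `T'` and passes through `n + 1` crossings), and that there is at least one more crossing at
one of the poles `west`, `east` of `T` or `north` of `T'`. Then the group is not left-orderable. The
same holds with the colours exchanged, and with `T`, `T'` exchanged.

For `n = 0` and a single crossing `T'` this says: if `L` has an almost alternating diagram, the two
white regions at the exceptional crossing are joined by two further disjoint paths of length two in
the white graph, and are not both incident with exactly two other crossings, then the fundamental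
group of the double branched cover is not left-orderable.
-/

namespace Pool.Agent.Results.MP_9ae2f3_gt.OppositeTangles

open Pool.Agent.Y479.LS

/-- Two disjoint paths of length two and `n` of length one between the poles of one colour on one
side, a walk of length `n + 1` between the poles of the other colour on the other side, and one more
crossing. -/
def Double {V C : Type} (v₁ v₂ : C → V) (p q : V) (star : V → List (C × Bool)) {V' C' : Type}
    (v₁' v₂' : C' → V') (p' q' : V') (star' : V' → List (C' × Bool)) : Prop :=
  ∃ n, Nonempty (TwoPaths v₁ v₂ p q star n) ∧ Walk v₁' v₂' (n + 1) p' q' ∧
    (n + 3 ≤ (star p).length ∨ n + 3 ≤ (star q).length ∨ 2 ≤ (star' p').length)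

/-- The hypothesis on `T` and `T'`: either for the white regions of `T` and the black regions of `T'`,
or for the black regions of `T'` and the white regions of `T`. -/
def Exceeds (T T' : Tangle) : Prop :=
  Double T.w₁ T.w₂ T.west T.east T.starW T'.b₁ T'.b₂ T'.north T'.south T'.starB ∨
  Double T'.b₁ T'.b₂ T'.north T'.south T'.starB T.w₁ T.w₂ T.west T.east T.starW

theorem double_false {V E C : Type} {v₁ v₂ : C → V} {e₁ e₂ : C → E} {p q : V} {a c : E}
    {star : V → List (C × Bool)} {V' E' C' : Type} {v₁' v₂' : C' → V'} {e₁' e₂' : C' → E'}
    {p' q' : V'} {a' c' : E'} {star' : V' → List (C' × Bool)}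
    {P : Type*} [Group P] [PartialOrder P] [MulLeftMono P] [MulRightMono P]
    {f : V → P} {h : E → P} {f' : V' → P} {h' : E' → P} (S : Side v₁ v₂ e₁ e₂ p q a c star)
    (S' : Side v₁' v₂' e₁' e₂' p' q' a' c' star')
    (hr : Side.Rel v₁ v₂ e₁ e₂ f h) (hr' : Side.Rel v₁' v₂' e₁' e₂' f' h')
    (hf : Bounds f p q) (hh : Bounds h a c) (hf' : Bounds f' p' q') (hh' : Bounds h' a' c')
    (g1 : f q = h' c') (g2 : h c = f' q') (H : Double v₁ v₂ p q star v₁' v₂' p' q' star') :
    False := by
  obtain ⟨n, ⟨T⟩, hw, hs⟩ := H
  obtain ⟨k1, k2⟩ := S'.voltage_le hr' hh' hf' hw
  rw [← g1, ← g2] at k1 k2
  obtain ⟨r1, r2, r3⟩ := S.two_paths hr hf hh T k1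
  rcases hs with hs | hs | hs
  · omega
  · omega
  · exact (k2 hs).ne r1

/-- **Unions of two alternating tangles of opposite sign.** Every homomorphism from the fundamental
group of the double branched cover to a left-orderable group is trivial; in particular this group is
not left-orderable. -/
theorem result (T T' : Tangle) (h : Exceeds T T' ∨ Exceeds T' T) :
    (∀ (H : Type) [Group H], LeftOrderable H → ∀ (f : Union.Grp T T' →* H) (γ : Union.Grp T T'),
      f γ = 1) ∧ ¬ LeftOrderable (Union.Grp T T') := by
  refine Union.not_leftOrderable fun X _ _ w b w' b' D => ?_
  rcases h with (h | h) | (h | h)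
  · exact double_false T.white T'.black D.rep.white D.rep'.black D.white D.black D.black' D.white'
      D.east D.south h
  · exact double_false T'.black T.white D.rep'.black D.rep.white D.black' D.white' D.white D.black
      D.south.symm D.east.symm h
  · exact double_false T'.white T.black D.rep'.white D.rep.black D.white' D.black' D.black D.white
      D.east.symm D.south.symm h
  · exact double_false T.black T'.white D.rep.black D.rep'.white D.black D.white D.white' D.black'
      D.south D.east h

/-- Example of a tangle: a single crossing. -/
def crossing : Tangle where
  W := Bool
  B := Bool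
  C := Unit
  finW := inferInstance
  finB := inferInstance
  w₁ _ := false
  b₁ _ := true
  w₂ _ := true
  b₂ _ := false
  west := false
  north := false
  east := true
  south := true
  starW v := [((), v)]
  starB v := [((), !v)]
  white := by
    refine ⟨by decide, by decide, by decide, by decide, ?_, ⟨rfl, rfl⟩, ⟨rfl, rfl⟩, ?_, ?_⟩
    · intro v h1 h2
      cases v
      · exact absurd rfl h1
      · exact absurd rfl h2
    · intro v h1
      cases v
      · exact absurd rfl h1
      · exact Relation.ReflTransGen.refl
    · intro v h1
      cases v
      · exact Relation.ReflTransGen.refl
      · exact absurd rfl h1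
  black := by
    refine ⟨by decide, by decide, by decide, by decide, ?_, ⟨rfl, rfl⟩, ⟨rfl, rfl⟩, ?_, ?_⟩
    · intro v h1 h2
      cases v
      · exact absurd rfl h1
      · exact absurd rfl h2
    · intro v h1
      cases v
      · exact absurd rfl h1
      · exact Relation.ReflTransGen.refl
    · intro v h1
      cases v
      · exact Relation.ReflTransGen.refl
      · exact absurd rfl h1

/-- The case of almost alternating diagrams. -/
theorem almost_alternating (T : Tangle)
    (h : TwoPaths T.w₁ T.w₂ T.west T.east T.starW 0)
    (h' : 3 ≤ (T.starW T.west).length ∨ 3 ≤ (T.starW T.east).length) :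
    ¬ LeftOrderable (Union.Grp T crossing) := by
  refine (result T crossing (Or.inl (Or.inl ⟨0, ⟨h⟩, ?_, ?_⟩))).2
  · exact ⟨true, ⟨((), true), rfl, rfl⟩, rfl⟩
  · rcases h' with h' | h'
    · exact Or.inl h'
    · exact Or.inr (Or.inl h')

end Pool.Agent.Results.MP_9ae2f3_gt.OppositeTangles
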