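import Pool.Agent.Y479.LS.Sum

set_option autoImplicit false

/-!
# Comparison of sums of alternating tangles with Seifert manifolds

Let `T 0, ..., T k` and `T'` be alternating tangle diagrams (`Pool.Agent.Y479.LS.Tangle`; the regions
at the boundary circle are `west`, `east` (white), `north`, `south` (black)). Put `T 0, ..., T k` below
each other, so that all of them are adjacent to the same white regions `west` and `east` (the sum of
the tangles), and close the sum with the mirror image of `T'` to a link `L`. The group
`Sum.Grp T T' 0` is the fundamental group of the double branched cover of `L`.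

Suppose that `T i` has a walk of length `d i` from `west` to `east` in its white graph, and that `T'`
contains at least `m` crossings which are adjacent to `north` and `south`. The simplest such tangles
are the rational tangles `1 / d i` and `1 / m`, and then the double branched cover is the Seifert
manifold `M(-1 / m; 1 / d 0, ..., 1 / d k) = M(-1; (m - 1) / m, 1 / d 0, ..., 1 / d k)` with base `S²`.
By Jankins-Neumann and Naimi it admits a horizontal foliation if and only if there are integers
`0 < a < M` such that the invariants, in some order, are smaller than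
`a / M, (M - a) / M, 1 / M, ..., 1 / M`.

The theorem: if this is not the case then for all `T i`, `T'` as above the fundamental group of the
double branched cover of `L` has no nontrivial homomorphism to a left-orderable group.
-/

namespace Pool.Agent.Results.MP_9ae2f3_gt.SeifertComparison

open Pool.Agent.Y479.LS

/-- The invariants `(m - 1) / m, 1 / d 0, ..., 1 / d k`. -/
def invariant {k : ℕ} (m : ℕ) (d : Fin (k + 1) → ℕ) : Option (Fin (k + 1)) → ℚ
  | none => ((m : ℚ) - 1) / m
  | some i => 1 / (d i : ℚ)

/-- The criterion of Jankins, Neumann and Naimi for horizontal foliations of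
`M(-1; (m - 1) / m, 1 / d 0, ..., 1 / d k)`. -/
def Foliated {k : ℕ} (m : ℕ) (d : Fin (k + 1) → ℕ) : Prop :=
  ∃ M a : ℕ, 0 < a ∧ a < M ∧ ∃ x y : Option (Fin (k + 1)), x ≠ y ∧
    invariant m d x < (a : ℚ) / M ∧ invariant m d y < ((M : ℚ) - a) / M ∧
    ∀ z, z ≠ x → z ≠ y → invariant m d z < 1 / (M : ℚ)

theorem one_div_lt {a b : ℕ} (hb : 0 < b) (h : b < a) : 1 / (a : ℚ) < 1 / (b : ℚ) := by
  have h1 : (0 : ℚ) < b := by exact_mod_cast hb
  have h2 : (b : ℚ) < a := by exact_mod_cast h
  exact one_div_lt_one_div_of_lt h1 h2

/-- `a * d' < d` in naturals gives the inequality of fractions `1 / d < a / d'`. -/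
theorem one_div_lt_div {d a M : ℕ} (hd : 0 < d) (hM : 0 < M) (h : M < a * d) :
    1 / (d : ℚ) < (a : ℚ) / M := by
  have h1 : (0 : ℚ) < d := by exact_mod_cast hd
  have h2 : (0 : ℚ) < M := by exact_mod_cast hM
  rw [div_lt_div_iff₀ h1 h2, one_mul]
  exact_mod_cast h

theorem cases {k m : ℕ} {d : Fin (k + 1) → ℕ} (hd : ∀ i, 1 ≤ d i) (hm : 1 ≤ m)
    (hk : 2 ≤ k ∨ (1 ≤ k ∧ 2 ≤ m)) (h : ¬ Foliated m d) :
    (∃ i, d i ≤ m) ∨ (2 ≤ m ∧ ∃ i j, i ≠ j ∧ d i ≤ m + 1 ∧ d j ≤ 2 * m + 1) ∨
      (m = 1 ∧ ∃ i j l, i ≠ j ∧ j ≠ l ∧ i ≠ l ∧
        d i * d j * d l < d i * d j + d j * d l + d i * d l) := by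
  by_contra hcon
  push Not at hcon
  obtain ⟨c1, c2, c3⟩ := hcon
  refine h ?_
  have hk1 : 1 ≤ k := by omega
  have h01 : (0 : Fin (k + 1)) ≠ Fin.last k := by
    intro h0
    have := congrArg Fin.val h0
    simp only [Fin.val_zero, Fin.val_last] at this
    omega
  rcases Nat.lt_or_ge m 2 with hm1 | hm2
  · -- `m = 1`
    have hm' : m = 1 := by omega
    subst hm'
    have hk2 : 2 ≤ k := by omega
    have c3 := c3 rfl
    have none0 : invariant 1 d none = 0 := by
      simp [invariant]
    have third : ∀ i j : Fin (k + 1), ∃ l, l ≠ i ∧ l ≠ j := by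
      intro i j
      by_contra hc
      push Not at hc
      have hcard : Fintype.card (Fin (k + 1)) ≤ ({i, j} : Finset (Fin (k + 1))).card := by
        rw [← Finset.card_univ]
        refine Finset.card_le_card fun l _ => ?_
        rw [Finset.mem_insert, Finset.mem_singleton]
        by_cases hl : l = i
        · exact Or.inl hl
        · exact Or.inr (hc l hl)
      have := Finset.card_le_two (a := i) (b := j)
      rw [Fintype.card_fin] at hcard
      omega
    by_cases h3 : ∀ i, 3 ≤ d i
    · refine ⟨2, 1, by norm_num, by norm_num, some 0, some (Fin.last k), by simpa using h01,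
        ?_, ?_, ?_⟩
      · exact one_div_lt_div (hd 0) (by norm_num) (by have := h3 0; omega)
      · have := one_div_lt_div (a := 1) (M := 2) (hd (Fin.last k)) (by norm_num)
          (by have := h3 (Fin.last k); omega)
        refine lt_of_lt_of_le this ?_
        norm_num
      · intro z _ _
        cases z with
        | none => rw [none0]; norm_num
        | some i =>
          have := one_div_lt_div (a := 1) (M := 2) (hd i) (by norm_num)
            (by have := h3 i; omega)
          simpa [invariant] using this
    · push Not at h3
      obtain ⟨i, hi⟩ := h3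
      have hi2 : d i = 2 := by have := c1 i; omega
      -- all others are at least 3
      have o3 : ∀ j, j ≠ i → 3 ≤ d j := by
        intro j hj
        by_contra hcon
        have hj2 : d j = 2 := by have := c1 j; omega
        obtain ⟨l, hl1, hl2⟩ := third i j
        have := c3 i j l hj.symm hl2.symm hl1.symm
        rw [hi2, hj2] at this
        omega
      by_cases h4 : ∀ j, j ≠ i → 4 ≤ d j
      · obtain ⟨j, hj, -⟩ := third i i
        refine ⟨3, 2, by norm_num, by norm_num, some i, some j, by simpa using hj.symm, ?_, ?_, ?_⟩
        · exact one_div_lt_div (hd i) (by norm_num) (by omega)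
        · have := one_div_lt_div (a := 1) (M := 3) (hd j) (by norm_num)
            (by have := h4 j hj; omega)
          refine lt_of_lt_of_le this ?_
          norm_num
        · intro z hz _
          cases z with
          | none => rw [none0]; norm_num
          | some l =>
            have hl : l ≠ i := by simpa using hz
            have := one_div_lt_div (a := 1) (M := 3) (hd l) (by norm_num)
              (by have := h4 l hl; omega)
            simpa [invariant] using this
      · push Not at h4
        obtain ⟨j, hj, hj'⟩ := h4
        have hj3 : d j = 3 := by have := o3 j hj; omega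
        have o6 : ∀ l, l ≠ i → l ≠ j → 6 ≤ d l := by
          intro l hl1 hl2
          have := c3 i j l hj.symm hl2.symm hl1.symm
          rw [hi2, hj3] at this
          omega
        refine ⟨5, 3, by norm_num, by norm_num, some i, some j, by simpa using hj.symm, ?_, ?_, ?_⟩
        · exact one_div_lt_div (hd i) (by norm_num) (by omega)
        · have := one_div_lt_div (a := 2) (M := 5) (hd j) (by norm_num) (by omega)
          refine lt_of_lt_of_le this ?_
          norm_num
        · intro z hz1 hz2
          cases z with
          | none => rw [none0]; norm_num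
          | some l =>
            have hl : l ≠ i := by simpa using hz1
            have hl' : l ≠ j := by simpa using hz2
            have := one_div_lt_div (a := 1) (M := 5) (hd l) (by norm_num)
              (by have := o6 l hl hl'; omega)
            simpa [invariant] using this
  · have mpos : (0 : ℚ) < m := by exact_mod_cast hm
    have c2 := c2 hm2
    by_cases h2 : ∀ i, m + 2 ≤ d i
    · refine ⟨m + 1, m, by omega, by omega, none, some 0, by simp, ?_, ?_, ?_⟩
      · show ((m : ℚ) - 1) / m < (m : ℚ) / ((m + 1 : ℕ) : ℚ)
        push_cast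
        rw [div_lt_div_iff₀ mpos (by positivity)]
        nlinarith
      · have := one_div_lt_div (a := 1) (M := m + 1) (hd 0) (by omega)
          (by have := h2 0; omega)
        refine lt_of_lt_of_le this ?_
        push_cast
        rw [add_sub_cancel_left]
      · intro z hz _
        cases z with
        | none => exact absurd rfl hz
        | some l =>
          have := one_div_lt_div (a := 1) (M := m + 1) (hd l) (by omega)
            (by have := h2 l; omega)
          simpa [invariant] using this
    · push Not at h2
      obtain ⟨i, hi⟩ := h2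
      have hi' : d i = m + 1 := by have := c1 i; omega
      have o : ∀ j, j ≠ i → 2 * m + 2 ≤ d j := by
        intro j hj
        have := c2 i j hj.symm (by omega)
        omega
      refine ⟨2 * m + 1, 2 * m - 1, by omega, by omega, none, some i, by simp, ?_, ?_, ?_⟩
      · show ((m : ℚ) - 1) / m < ((2 * m - 1 : ℕ) : ℚ) / ((2 * m + 1 : ℕ) : ℚ)
        rw [Nat.cast_sub (by omega)]
        push_cast
        rw [div_lt_div_iff₀ mpos (by positivity)]
        nlinarith
      · have := one_div_lt_div (a := 2) (M := 2 * m + 1) (hd i) (by omega)
          (by rw [hi']; omega)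
        refine lt_of_lt_of_le this ?_
        rw [Nat.cast_sub (by omega)]
        push_cast
        refine le_of_eq ?_
        congr 1
        ring
      · intro z hz1 hz2
        cases z with
        | none => exact absurd rfl hz1
        | some l =>
          have hl : l ≠ i := by simpa using hz2
          have := one_div_lt_div (a := 1) (M := 2 * m + 1) (hd l) (by omega)
            (by have := o l hl; omega)
          simpa [invariant] using this

/-- **Comparison with Seifert manifolds.** At least three invariants are positive, that is, `k ≥ 2`, or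
`k ≥ 1` and `m ≥ 2`. -/
theorem result (k m : ℕ) (T : Fin (k + 1) → Tangle) (T' : Tangle) (d : Fin (k + 1) → ℕ)
    (hd : ∀ i, Walk (T i).w₁ (T i).w₂ (d i) (T i).west (T i).east)
    (hm : 1 ≤ m) (hm' : m ≤ facing T'.b₁ T'.b₂ (T'.starB T'.north) T'.south)
    (hk : 2 ≤ k ∨ (1 ≤ k ∧ 2 ≤ m)) (h : ¬ Foliated m d) :
    (∀ (H : Type) [Group H], LeftOrderable H → ∀ (f : Sum.Grp T T' 0 →* H) (γ : Sum.Grp T T' 0),
      f γ = 1) ∧ ¬ LeftOrderable (Sum.Grp T T' 0) := by
  refine Sum.not_leftOrderable fun X _ _ g S A D => ?_
  have hd1 : ∀ i, 1 ≤ d i := by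
    intro i
    rcases Nat.eq_zero_or_pos (d i) with h0 | h1
    · have := hd i
      rw [h0] at this
      exact absurd this (T i).white.ne
    · exact h1
  have S1 : 1 ≤ S := (D.cur 0).le.trans (D.le 0)
  have hser : S ^ m ≤ g := by
    have := D.series
    rw [pow_zero, mul_one] at this
    exact (pow_le_pow_right' S1 hm').trans this
  rcases cases hd1 hm hk h with ⟨i, hi⟩ | ⟨hm2, i, j, hij, h1, h2⟩ | ⟨rfl, i, j, l, hij, hjl, hil, hs⟩
  · -- a short walk in one summand
    have hlt : A i < S := by
      obtain ⟨j, hj⟩ : ∃ j, j ≠ i := by
        have : Nontrivial (Fin (k + 1)) := Fin.nontrivial_iff_two_le.mpr (by omega)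
        exact exists_ne i
      rcases lt_or_gt_of_ne hj with h1 | h1
      · exact lt_of_lt_of_le (lt_mul_of_one_lt_left' _ (D.cur j)) (D.pair j i h1)
      · exact lt_of_lt_of_le (lt_mul_of_one_lt_right' _ (D.cur j)) (D.pair i j h1)
    have h1 : g ≤ A i ^ m := (D.volt i _ (hd i)).trans (pow_le_pow_right' (D.cur i).le hi)
    obtain ⟨m, rfl⟩ := Nat.exists_eq_add_of_le' hm
    have h2 : A i ^ (m + 1) < S ^ (m + 1) := by
      rw [pow_succ, pow_succ]
      exact lt_of_le_of_lt (mul_le_mul_left (pow_le_pow_of_le hlt.le m) _)
        (mul_lt_mul_right hlt _)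
    exact absurd (lt_of_le_of_lt h1 (lt_of_lt_of_le h2 hser)) (lt_irrefl _)
  · obtain ⟨r, rfl⟩ := Nat.exists_eq_add_of_le' hm2
    have k5 : ∀ i j, i < j → (A i * A j) ^ (r + 2) ≤ g := fun i j hij =>
      (pow_le_pow_of_le (D.pair i j hij) _).trans hser
    have g1 : g ≤ A i ^ (r + 3) :=
      (D.volt i _ (hd i)).trans (pow_le_pow_right' (D.cur i).le (by omega))
    have g2 : g ≤ A j ^ (2 * r + 5) :=
      (D.volt j _ (hd j)).trans (pow_le_pow_right' (D.cur j).le (by omega))
    rcases lt_or_gt_of_ne hij with h1 | h1
    · exact pair₁ (D.cur j) (k5 i j h1) g1 g2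
    · exact pair₂ (D.cur j) (k5 j i h1) g2 g1
  · rw [pow_one] at hser
    have main : ∀ i j l, i < j → j < l →
        d i * d j * d l < d i * d j + d j * d l + d i * d l → False := fun i j l hij hjl hs =>
      spherical (D.cur i) (D.cur j) (D.cur l) (hd1 i) (hd1 j) (hd1 l) hs
        ((D.triple i j l hij hjl).trans hser)
        (D.volt i _ (hd i)) (D.volt j _ (hd j)) (D.volt l _ (hd l))
    have n1 : d i * d l * d j < d i * d l + d l * d j + d i * d j := by ring_nf at hs ⊢; omega
    have n2 : d j * d i * d l < d j * d i + d i * d l + d j * d l := by ring_nf at hs ⊢; omega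
    have n3 : d j * d l * d i < d j * d l + d l * d i + d j * d i := by ring_nf at hs ⊢; omega
    have n4 : d l * d i * d j < d l * d i + d i * d j + d l * d j := by ring_nf at hs ⊢; omega
    have n5 : d l * d j * d i < d l * d j + d j * d i + d l * d i := by ring_nf at hs ⊢; omega
    rcases lt_or_gt_of_ne hij with c1 | c1
    · rcases lt_or_gt_of_ne hjl with c2 | c2
      · exact main i j l c1 c2 hs
      · rcases lt_or_gt_of_ne hil with c3 | c3
        · exact main i l j c3 c2 n1
        · exact main l i j c3 c1 n4
    · rcases lt_or_gt_of_ne hjl with c2 | c2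
      · rcases lt_or_gt_of_ne hil with c3 | c3
        · exact main j i l c1 c3 n2
        · exact main j l i c2 c3 n3
      · exact main l j i c2 c1 n5

end Pool.Agent.Results.MP_9ae2f3_gt.SeifertComparison
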