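import Pool.Agent.Y479.LS.Union

set_option autoImplicit false

/-!
# Alternating tangles with a short walk, closed with a tangle of the opposite sign

Let `T`, `T'` be alternating tangle diagrams (`Pool.Agent.Y479.LS.Tangle`; the regions at the boundary
circle are `west`, `east` (white), `north`, `south` (black)), and let `L` be the link with the diagram
that is obtained by gluing `T` and the mirror image of `T'` along the boundary circle, region by
region. The group `Union.Grp T T'` is the fundamental group of the double branched cover of `L`.

The theorem: suppose that for some `l` the poles `west`, `east` of `T` are joined by a walk of length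
`l` in the white graph of `T`, that `T'` contains at least `l` crossings adjacent to both `north` and
`south`, and that `T` has at least two crossings at `west` or `T'` has more than `l` crossings at
`north`. Then the group is not left-orderable. The same holds with the colours exchanged, and with
`T`, `T'` exchanged.

For instance let `T'` be the rational tangle `p / q`. If `west`, `east` have distance `l` and
`p / q < 1 / l`, or if `north`, `south` have distance `l` and `p / q > l`, then the Dehn filling
`T - p / q` of the double branched cover of the tangle `T` is not left-orderable; these slopes form an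
interval that contains the slopes of the alternating fillings in its interior.
-/

namespace Pool.Agent.Results.MP_9ae2f3_gt.ShortWalks

open Pool.Agent.Y479.LS

/-- A walk of length `l` between the poles of one colour on one side, at least `l` crossings adjacent
to both poles of the other colour on the other side, and one more crossing. -/
def Short {V C : Type} (v₁ v₂ : C → V) (p q : V) (star : V → List (C × Bool)) {V' C' : Type}
    (v₁' v₂' : C' → V') (p' q' : V') (star' : V' → List (C' × Bool)) : Prop :=
  ∃ l, Walk v₁ v₂ l p q ∧ l ≤ facing v₁' v₂' (star' p') q' ∧
    (2 ≤ (star p).length ∨ l < (star' p').length)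

/-- The hypothesis on `T` and `T'`: either for the white regions of `T` and the black regions of `T'`,
or for the black regions of `T'` and the white regions of `T`. -/
def Exceeds (T T' : Tangle) : Prop :=
  Short T.w₁ T.w₂ T.west T.east T.starW T'.b₁ T'.b₂ T'.north T'.south T'.starB ∨
  Short T'.b₁ T'.b₂ T'.north T'.south T'.starB T.w₁ T.w₂ T.west T.east T.starW

theorem short_false {V E C : Type} {v₁ v₂ : C → V} {e₁ e₂ : C → E} {p q : V} {a c : E}
    {star : V → List (C × Bool)} {V' E' C' : Type} {v₁' v₂' : C' → V'} {e₁' e₂' : C' → E'}
    {p' q' : V'} {a' c' : E'} {star' : V' → List (C' × Bool)}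
    {P : Type*} [Group P] [PartialOrder P] [MulLeftMono P] [MulRightMono P]
    {f : V → P} {h : E → P} {f' : V' → P} {h' : E' → P} (S : Side v₁ v₂ e₁ e₂ p q a c star)
    (S' : Side v₁' v₂' e₁' e₂' p' q' a' c' star')
    (hr : Side.Rel v₁ v₂ e₁ e₂ f h) (hr' : Side.Rel v₁' v₂' e₁' e₂' f' h')
    (hf : Bounds f p q) (hh : Bounds h a c) (hf' : Bounds f' p' q') (hh' : Bounds h' a' c')
    (g1 : f q = h' c') (g2 : h c = f' q') (H : Short v₁ v₂ p q star v₁' v₂' p' q' star') :
    False := by
  obtain ⟨l, hw, hl, hs⟩ := H
  obtain ⟨k1, k2⟩ := S.voltage_le hr hh hf hw
  obtain ⟨k3, k4⟩ := S'.current_ge hr' hf' hh'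
  rw [← g1, ← g2] at k3 k4
  have hA : 1 < h c := by
    rw [g2]; exact hf'.pos _ S'.ne.symm
  have k5 : h c ^ l ≤ h c ^ facing v₁' v₂' (star' p') q' := pow_le_pow_right' hA.le hl
  rcases hs with hs | hs
  · exact absurd (lt_of_lt_of_le (k2 hs) (k5.trans k3)) (lt_irrefl _)
  · rcases hl.lt_or_eq with h6 | h6
    · obtain ⟨m, hm⟩ := Nat.exists_eq_add_of_lt h6
      have k6 : h c ^ l < h c ^ facing v₁' v₂' (star' p') q' := by
        rw [hm, add_assoc, pow_add]
        refine lt_mul_of_one_lt_right' _ ?_
        rw [pow_succ]
        exact lt_of_lt_of_le hA (le_mul_of_one_le_left' (one_le_pow_of_one_le' hA.le m))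
      exact absurd (lt_of_le_of_lt k1 (lt_of_lt_of_le k6 k3)) (lt_irrefl _)
    · rw [h6] at hs k1
      exact absurd (lt_of_le_of_lt k1 (k4 hs)) (lt_irrefl _)

/-- **Alternating tangles with a short walk.** Every homomorphism from the fundamental group of the
double branched cover to a left-orderable group is trivial; in particular this group is not
left-orderable. -/
theorem result (T T' : Tangle) (h : Exceeds T T' ∨ Exceeds T' T) :
    (∀ (H : Type) [Group H], LeftOrderable H → ∀ (f : Union.Grp T T' →* H) (γ : Union.Grp T T'),
      f γ = 1) ∧ ¬ LeftOrderable (Union.Grp T T') := by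
  refine Union.not_leftOrderable fun X _ _ w b w' b' D => ?_
  rcases h with (h | h) | (h | h)
  · exact short_false T.white T'.black D.rep.white D.rep'.black D.white D.black D.black' D.white'
      D.east D.south h
  · exact short_false T'.black T.white D.rep'.black D.rep.white D.black' D.white' D.white D.black
      D.south.symm D.east.symm h
  · exact short_false T'.white T.black D.rep'.white D.rep.black D.white' D.black' D.black D.white
      D.east.symm D.south.symm h
  · exact short_false T.black T'.white D.rep.black D.rep'.white D.black D.white D.white' D.black'
      D.south D.east h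

end Pool.Agent.Results.MP_9ae2f3_gt.ShortWalks
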