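import Pool.Agent.Y479.LS.Sum

set_option autoImplicit false

/-!
# Sums of alternating tangles with spherical distances

Let `T 0, ..., T k` and `T'` be alternating tangle diagrams (`Pool.Agent.Y479.LS.Tangle`; the regions
at the boundary circle are `west`, `east` (white), `north`, `south` (black)). Put `T 0, ..., T k` and
`n` more crossings of the same sign below each other, so that all of them are adjacent to the same
white regions `west` and `east` (the sum `T 0 + ... + T k + n`; a Montesinos tangle if all `T i` are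
rational), and close the sum with the mirror image of `T'` to a link `L`, the closure of
`T 0 + ... + T k + n - T'`.

The group `Sum.Grp T T' n` is the fundamental group of the double branched cover of `L`: the generators
are the regions, there is the relation `b₂⁻¹ b₁ = w₁⁻¹ w₂` for each crossing (corners `w₁, b₁, w₂, b₂`
in counterclockwise order, for `T'` before reflection), common regions are identified, and
`west = north = 1`.

Suppose that three different summands have walks of lengths `d₁, d₂, d₃` from `west` to `east` in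
their white graphs with `1 / d₁ + 1 / d₂ + 1 / d₃ > 1`, that is, up to order the lengths are
`(1, *, *)`, `(2, 2, *)`, `(2, 3, 3)`, `(2, 3, 4)` or `(2, 3, 5)`, and that `T'` has a walk of length
`n + 1` from `north` to `south` in its black graph (for `n = 0`: `T'` has a crossing adjacent to both,
for instance it is a single crossing). Then the fundamental group of the double branched cover of `L`
has no nontrivial homomorphism to a left-orderable group.
-/

namespace Pool.Agent.Results.MP_9ae2f3_gt.SphericalTangleSums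

open Pool.Agent.Y479.LS

/-- `1 / d₁ + 1 / d₂ + 1 / d₃ > 1` for lengths of walks from `west` to `east` in three summands. -/
def Spherical {k : ℕ} (T : Fin (k + 1) → Tangle) : Prop :=
  ∃ i j l : Fin (k + 1), i ≠ j ∧ j ≠ l ∧ i ≠ l ∧ ∃ d₁ d₂ d₃ : ℕ,
    Walk (T i).w₁ (T i).w₂ d₁ (T i).west (T i).east ∧
    Walk (T j).w₁ (T j).w₂ d₂ (T j).west (T j).east ∧
    Walk (T l).w₁ (T l).w₂ d₃ (T l).west (T l).east ∧
    (1 : ℚ) < 1 / d₁ + 1 / d₂ + 1 / d₃

theorem natForm {a b c : ℕ} (ha : 1 ≤ a) (hb : 1 ≤ b) (hc : 1 ≤ c)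
    (h : (1 : ℚ) < 1 / a + 1 / b + 1 / c) : a * b * c < a * b + b * c + a * c := by
  have ha' : (0 : ℚ) < a := by exact_mod_cast ha
  have hb' : (0 : ℚ) < b := by exact_mod_cast hb
  have hc' : (0 : ℚ) < c := by exact_mod_cast hc
  have h1 : (1 : ℚ) / a + 1 / b + 1 / c = (a * b + b * c + a * c) / (a * b * c) := by
    field_simp; ring
  rw [h1, lt_div_iff₀ (by positivity), one_mul] at h
  exact_mod_cast h

theorem sorted_false {k n : ℕ} {T : Fin (k + 1) → Tangle} {T' : Tangle} {P : Type*} [Group P]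
    [PartialOrder P] [MulLeftMono P] [MulRightMono P] {g S : P} {A : Fin (k + 1) → P}
    (D : Sum.Data T T' n g S A) (hS : S ≤ g) {i j l : Fin (k + 1)} (hij : i < j) (hjl : j < l)
    {d₁ d₂ d₃ : ℕ} (w1 : Walk (T i).w₁ (T i).w₂ d₁ (T i).west (T i).east)
    (w2 : Walk (T j).w₁ (T j).w₂ d₂ (T j).west (T j).east)
    (w3 : Walk (T l).w₁ (T l).w₂ d₃ (T l).west (T l).east)
    (h1 : 1 ≤ d₁) (h2 : 1 ≤ d₂) (h3 : 1 ≤ d₃)
    (hs : d₁ * d₂ * d₃ < d₁ * d₂ + d₂ * d₃ + d₁ * d₃) : False :=
  spherical (D.cur i) (D.cur j) (D.cur l) h1 h2 h3 hs ((D.triple i j l hij hjl).trans hS)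
    (D.volt i d₁ w1) (D.volt j d₂ w2) (D.volt l d₃ w3)

/-- **Sums of alternating tangles with spherical distances.** -/
theorem result (k n : ℕ) (T : Fin (k + 1) → Tangle) (T' : Tangle) (hT : Spherical T)
    (hT' : Walk T'.b₁ T'.b₂ (n + 1) T'.north T'.south) :
    (∀ (H : Type) [Group H], LeftOrderable H → ∀ (f : Sum.Grp T T' n →* H) (γ : Sum.Grp T T' n),
      f γ = 1) ∧ ¬ LeftOrderable (Sum.Grp T T' n) := by
  refine Sum.not_leftOrderable fun X _ _ g S A D => ?_
  have hS : S ≤ g := by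
    have := D.walk (n + 1) hT'
    rw [pow_succ'] at this
    exact le_of_mul_le_mul_right' this
  have pos : ∀ (i : Fin (k + 1)) (d : ℕ), Walk (T i).w₁ (T i).w₂ d (T i).west (T i).east →
      1 ≤ d := by
    intro i d hd
    rcases Nat.eq_zero_or_pos d with rfl | h1
    · exact absurd hd (T i).white.ne
    · exact h1
  obtain ⟨i, j, l, hij, hjl, hil, d₁, d₂, d₃, w1, w2, w3, hs⟩ := hT
  have p1 := pos i d₁ w1
  have p2 := pos j d₂ w2
  have p3 := pos l d₃ w3
  have hn := natForm p1 p2 p3 hs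
  have n1 : d₁ * d₃ * d₂ < d₁ * d₃ + d₃ * d₂ + d₁ * d₂ := by ring_nf at hn ⊢; omega
  have n2 : d₂ * d₁ * d₃ < d₂ * d₁ + d₁ * d₃ + d₂ * d₃ := by ring_nf at hn ⊢; omega
  have n3 : d₂ * d₃ * d₁ < d₂ * d₃ + d₃ * d₁ + d₂ * d₁ := by ring_nf at hn ⊢; omega
  have n4 : d₃ * d₁ * d₂ < d₃ * d₁ + d₁ * d₂ + d₃ * d₂ := by ring_nf at hn ⊢; omega
  have n5 : d₃ * d₂ * d₁ < d₃ * d₂ + d₂ * d₁ + d₃ * d₁ := by ring_nf at hn ⊢; omega
  rcases lt_or_gt_of_ne hij with c1 | c1
  · rcases lt_or_gt_of_ne hjl with c2 | c2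
    · exact sorted_false D hS c1 c2 w1 w2 w3 p1 p2 p3 hn
    · rcases lt_or_gt_of_ne hil with c3 | c3
      · exact sorted_false D hS c3 c2 w1 w3 w2 p1 p3 p2 n1
      · exact sorted_false D hS c3 c1 w3 w1 w2 p3 p1 p2 n4
  · rcases lt_or_gt_of_ne hjl with c2 | c2
    · rcases lt_or_gt_of_ne hil with c3 | c3
      · exact sorted_false D hS c1 c3 w2 w1 w3 p2 p1 p3 n2
      · exact sorted_false D hS c2 c3 w2 w3 w1 p2 p3 p1 n3
    · exact sorted_false D hS c2 c1 w3 w2 w1 p3 p2 p1 n5

end Pool.Agent.Results.MP_9ae2f3_gt.SphericalTangleSums
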